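import Mathlib

/-!
# From products of lower sets to products of intervals (finite point sets)
-/

set_option autoImplicit false

namespace Pool.Agent.N476.PM

open MeasureTheory Finset

open Classical in
/-- Local discrepancy (not normalised) of `x 0, …, x (N-1)` on the box with sides `I i`. -/
noncomputable def err {d : ℕ} (μ : Measure (Fin d → ℝ)) (N : ℕ) (x : Fin N → Fin d → ℝ)
    (I : Fin d → Set ℝ) : ℝ :=
  (((univ : Finset (Fin N)).filter (fun n => ∀ i, x n i ∈ I i)).card : ℝ) - N * (μ {z | ∀ i, z i ∈ I i}).toReal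

theorem ordConn_diff (I : Set ℝ) (hI : I.OrdConnected) :
    ∃ L1 L2 : Set ℝ, IsLowerSet L1 ∧ IsLowerSet L2 ∧ L2 ⊆ L1 ∧ I = L1 \ L2 := by
  rcases Set.eq_empty_or_nonempty I with rfl | ⟨a0, ha0⟩
  · exact ⟨∅, ∅, fun _ _ _ h => h, fun _ _ _ h => h, subset_rfl, by simp⟩
  · refine ⟨{z | ∃ a ∈ I, z ≤ a}, {z | ∀ a ∈ I, z < a}, ?_, ?_, ?_, ?_⟩
    · rintro a b hab ⟨c, hc, hac⟩
      exact ⟨c, hc, hab.trans hac⟩
    · intro a b hab h c hc
      exact lt_of_le_of_lt hab (h c hc)
    · intro z hz
      exact ⟨a0, ha0, (hz a0 ha0).le⟩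
    · ext z
      constructor
      · intro hz
        exact ⟨⟨z, hz, le_rfl⟩, fun h => lt_irrefl _ (h z hz)⟩
      · rintro ⟨⟨a, ha, hza⟩, hz2⟩
        have : ∃ b ∈ I, b ≤ z := by
          by_contra hcon
          push Not at hcon
          exact hz2 hcon
        obtain ⟨b, hb, hbz⟩ := this
        exact hI.out hb ha ⟨hbz, hza⟩

theorem err_diff {d : ℕ} (μ : Measure (Fin d → ℝ)) [IsProbabilityMeasure μ] (N : ℕ)
    (x : Fin N → Fin d → ℝ) (I : Fin d → Set ℝ) (hI : ∀ i, (I i).OrdConnected) (k : Fin d) (L1 L2 : Set ℝ)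
    (_h1 : IsLowerSet L1) (h2 : IsLowerSet L2) (h21 : L2 ⊆ L1) (hk : I k = L1 \ L2) :
    err μ N x I = err μ N x (Function.update I k L1) - err μ N x (Function.update I k L2) := by
  classical
  have hmeas : ∀ J : Fin d → Set ℝ, (∀ i, (J i).OrdConnected) →
      MeasurableSet {z : Fin d → ℝ | ∀ i, z i ∈ J i} := by
    intro J hJ
    have : {z : Fin d → ℝ | ∀ i, z i ∈ J i} = Set.pi Set.univ J := by
      ext z; simp
    rw [this]
    exact MeasurableSet.univ_pi fun i => (hJ i).measurableSet
  have hO1 : ∀ L : Set ℝ, IsLowerSet L → ∀ i, (Function.update I k L i).OrdConnected := by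
    intro L hL i
    by_cases hik : i = k
    · subst hik
      rw [Function.update_self]
      exact hL.ordConnected
    · rw [Function.update_of_ne hik]
      exact hI i
  have hmem : ∀ (z : Fin d → ℝ) (L : Set ℝ), (∀ i, z i ∈ Function.update I k L i) ↔
      z k ∈ L ∧ ∀ i, i ≠ k → z i ∈ I i := by
    intro z L
    constructor
    · intro h
      refine ⟨by simpa using h k, fun i hi => by simpa [Function.update_of_ne hi] using h i⟩
    · rintro ⟨ha, hb⟩ i
      by_cases hik : i = k
      · subst hik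
        rw [Function.update_self]; exact ha
      · rw [Function.update_of_ne hik]; exact hb i hik
  have hmemI : ∀ z : Fin d → ℝ, (∀ i, z i ∈ I i) ↔ (z k ∈ L1 ∧ z k ∉ L2) ∧ ∀ i, i ≠ k → z i ∈ I i := by
    intro z
    constructor
    · intro h
      have := h k
      rw [hk] at this
      exact ⟨this, fun i _ => h i⟩
    · rintro ⟨ha, hb⟩ i
      by_cases hik : i = k
      · subst hik
        rw [hk]; exact ha
      · exact hb i hik
  have hsub : {z : Fin d → ℝ | ∀ i, z i ∈ Function.update I k L2 i} ⊆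
      {z : Fin d → ℝ | ∀ i, z i ∈ Function.update I k L1 i} := by
    intro z hz
    rw [Set.mem_ofPred_eq, hmem] at hz ⊢
    exact ⟨h21 hz.1, hz.2⟩
  have hset : {z : Fin d → ℝ | ∀ i, z i ∈ I i} =
      {z : Fin d → ℝ | ∀ i, z i ∈ Function.update I k L1 i} \
        {z : Fin d → ℝ | ∀ i, z i ∈ Function.update I k L2 i} := by
    ext z
    rw [Set.mem_sdiff, Set.mem_ofPred_eq, Set.mem_ofPred_eq, Set.mem_ofPred_eq, hmem, hmem, hmemI]
    tauto
  have hμ : (μ {z : Fin d → ℝ | ∀ i, z i ∈ I i}).toReal =
      (μ {z : Fin d → ℝ | ∀ i, z i ∈ Function.update I k L1 i}).toReal -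
        (μ {z : Fin d → ℝ | ∀ i, z i ∈ Function.update I k L2 i}).toReal := by
    rw [hset, measure_sdiff hsub (hmeas _ (hO1 L2 h2)).nullMeasurableSet (measure_ne_top _ _),
      ENNReal.toReal_sub_of_le (measure_mono hsub) (measure_ne_top _ _)]
  have hsubc : (univ : Finset (Fin N)).filter (fun n => ∀ i, x n i ∈ Function.update I k L2 i) ⊆
      (univ : Finset (Fin N)).filter (fun n => ∀ i, x n i ∈ Function.update I k L1 i) := by
    intro n hn
    rw [Finset.mem_filter] at hn ⊢
    exact ⟨hn.1, hsub hn.2⟩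
  have hcard : (((univ : Finset (Fin N)).filter (fun n => ∀ i, x n i ∈ I i)).card : ℝ) =
      (((univ : Finset (Fin N)).filter (fun n => ∀ i, x n i ∈ Function.update I k L1 i)).card : ℝ) -
        (((univ : Finset (Fin N)).filter (fun n => ∀ i, x n i ∈ Function.update I k L2 i)).card : ℝ) := by
    have : (univ : Finset (Fin N)).filter (fun n => ∀ i, x n i ∈ I i) =
        (univ : Finset (Fin N)).filter (fun n => ∀ i, x n i ∈ Function.update I k L1 i) \
          (univ : Finset (Fin N)).filter (fun n => ∀ i, x n i ∈ Function.update I k L2 i) := by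
      ext n
      rw [Finset.mem_sdiff, Finset.mem_filter, Finset.mem_filter, Finset.mem_filter, hmem, hmem,
        hmemI]
      tauto
    rw [this, Finset.card_sdiff_of_subset hsubc, Nat.cast_sub (Finset.card_le_card hsubc)]
  unfold err
  rw [hμ]
  have e1 := hcard
  linear_combination e1

/-- From products of lower sets to products of intervals, one coordinate at a time. -/
theorem err_le {d : ℕ} (μ : Measure (Fin d → ℝ)) [IsProbabilityMeasure μ] (N : ℕ)
    (x : Fin N → Fin d → ℝ) (B : ℝ) (hB : ∀ L : Fin d → Set ℝ, (∀ i, IsLowerSet (L i)) → |err μ N x L| ≤ B) :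
    ∀ k : ℕ, ∀ I : Fin d → Set ℝ, (∀ i, (I i).OrdConnected) →
      (∀ i : Fin d, k ≤ (i : ℕ) → IsLowerSet (I i)) → |err μ N x I| ≤ 2 ^ k * B := by
  intro k
  induction k with
  | zero =>
    intro I _ h
    simpa using hB I fun i => h i (Nat.zero_le _)
  | succ k ih =>
    intro I hI h
    by_cases hkd : k < d
    · obtain ⟨L1, L2, h1, h2, h21, hk⟩ := ordConn_diff (I ⟨k, hkd⟩) (hI _)
      rw [err_diff μ N x I hI ⟨k, hkd⟩ L1 L2 h1 h2 h21 hk]
      have key : ∀ L : Set ℝ, IsLowerSet L →
          |err μ N x (Function.update I ⟨k, hkd⟩ L)| ≤ 2 ^ k * B := by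
        intro L hL
        refine ih _ (fun i => ?_) (fun i hi => ?_)
        · by_cases hik : i = ⟨k, hkd⟩
          · subst hik
            rw [Function.update_self]
            exact hL.ordConnected
          · rw [Function.update_of_ne hik]
            exact hI i
        · by_cases hik : i = ⟨k, hkd⟩
          · subst hik
            rw [Function.update_self]
            exact hL
          · rw [Function.update_of_ne hik]
            refine h i ?_
            rcases Nat.lt_or_ge k i with h' | h'
            · exact h'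
            · exact absurd (Fin.ext (le_antisymm h' hi)) hik
      calc |err μ N x (Function.update I ⟨k, hkd⟩ L1) - err μ N x (Function.update I ⟨k, hkd⟩ L2)|
          ≤ |err μ N x (Function.update I ⟨k, hkd⟩ L1)| +
            |err μ N x (Function.update I ⟨k, hkd⟩ L2)| := abs_sub _ _
        _ ≤ 2 ^ k * B + 2 ^ k * B := add_le_add (key L1 h1) (key L2 h2)
        _ = 2 ^ (k + 1) * B := by ring
    · have hB0 : 0 ≤ B := (abs_nonneg _).trans
        (hB (fun _ => Set.univ) fun _ => isLowerSet_univ)
      refine (ih I hI (fun i hi => absurd (lt_of_le_of_lt hi i.2) hkd)).trans ?_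
      rw [pow_succ]
      nlinarith [pow_pos (by norm_num : (0 : ℝ) < 2) k,
        mul_nonneg (pow_pos (by norm_num : (0 : ℝ) < 2) k).le hB0]

end Pool.Agent.N476.PM
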