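import Mathlib

/-!
# Online placement of tokens on a binary tree (one-sided laminar control)
-/

set_option autoImplicit false

namespace Pool.Agent.N476.PM

open Finset

/-- Sum of `A` over the dyadic node `[k 2^j, (k+1) 2^j)`. -/
noncomputable def nd (A : ℕ → ℝ) (j k : ℕ) : ℝ := ∑ i ∈ Ico (k * 2 ^ j) ((k + 1) * 2 ^ j), A i

theorem nd_succ (A : ℕ → ℝ) (j k : ℕ) : nd A (j + 1) k = nd A j (2 * k) + nd A j (2 * k + 1) := by
  unfold nd
  have e1 : k * 2 ^ (j + 1) = 2 * k * 2 ^ j := by ring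
  have e2 : (k + 1) * 2 ^ (j + 1) = (2 * k + 1 + 1) * 2 ^ j := by ring
  rw [e1, e2]
  exact (Finset.sum_Ico_consecutive A (Nat.mul_le_mul_right _ (by omega))
    (Nat.mul_le_mul_right _ (by omega))).symm

/-- descent: below a node with nonpositive sum there is a leaf all of whose ancestors up to that
node have nonpositive sum. -/
theorem descent (A : ℕ → ℝ) (m : ℕ) : ∀ k : ℕ, nd A m k ≤ 0 →
    ∃ l : ℕ, l / 2 ^ m = k ∧ ∀ j ≤ m, nd A j (l / 2 ^ j) ≤ 0 := by
  induction m with
  | zero =>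
    intro k h
    refine ⟨k, by simp, fun j hj => ?_⟩
    obtain rfl : j = 0 := by omega
    simpa using h
  | succ m ih =>
    intro k h
    have key : ∃ k', k' / 2 = k ∧ nd A m k' ≤ 0 := by
      rw [nd_succ] at h
      by_cases h1 : nd A m (2 * k) ≤ 0
      · exact ⟨2 * k, by omega, h1⟩
      · exact ⟨2 * k + 1, by omega, by linarith⟩
    obtain ⟨k', hk', hA⟩ := key
    obtain ⟨l, hl, hl2⟩ := ih k' hA
    have hlk : l / 2 ^ (m + 1) = k := by
      rw [pow_succ, ← Nat.div_div_eq_div_mul, hl, hk']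
    refine ⟨l, hlk, fun j hj => ?_⟩
    rcases Nat.lt_or_ge j (m + 1) with hj' | hj'
    · exact hl2 j (by omega)
    · obtain rfl : j = m + 1 := by omega
      rw [hlk]
      exact h

/-- prefixes of a node -/
theorem pre_le (A : ℕ → ℝ) (m : ℕ) : ∀ k : ℕ,
    (∀ j ≤ m, ∀ k' : ℕ, k * 2 ^ (m - j) ≤ k' → k' < (k + 1) * 2 ^ (m - j) → nd A j k' ≤ 1) →
    ∀ r ≤ 2 ^ m, ∑ i ∈ Ico (k * 2 ^ m) (k * 2 ^ m + r), A i ≤ m + 1 := by
  induction m with
  | zero =>
    intro k h r hr
    rcases Nat.eq_zero_or_pos r with rfl | hr0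
    · simp
    · obtain rfl : r = 1 := by simp at hr; omega
      have := h 0 le_rfl k (by simp) (by simp)
      simpa [nd] using this
  | succ m ih =>
    intro k h r hr
    have hsub : ∀ k'' : ℕ, k'' / 2 = k → ∀ j ≤ m, ∀ k' : ℕ, k'' * 2 ^ (m - j) ≤ k' →
        k' < (k'' + 1) * 2 ^ (m - j) → nd A j k' ≤ 1 := by
      intro k'' hk j hj k' h1 h2
      have e : m + 1 - j = (m - j) + 1 := by omega
      refine h j (by omega) k' ?_ ?_
      · rw [e, pow_succ]
        have : 2 * k ≤ k'' := by omega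
        calc k * (2 ^ (m - j) * 2) = (2 * k) * 2 ^ (m - j) := by ring
          _ ≤ k'' * 2 ^ (m - j) := Nat.mul_le_mul_right _ this
          _ ≤ k' := h1
      · rw [e, pow_succ]
        have : k'' + 1 ≤ 2 * (k + 1) := by omega
        calc k' < (k'' + 1) * 2 ^ (m - j) := h2
          _ ≤ (2 * (k + 1)) * 2 ^ (m - j) := Nat.mul_le_mul_right _ this
          _ = (k + 1) * (2 ^ (m - j) * 2) := by ring
    have e1 : k * 2 ^ (m + 1) = 2 * k * 2 ^ m := by ring
    rw [e1]
    rcases Nat.lt_or_ge (2 ^ m) r with hr' | hr'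
    · -- left child full
      have hl : nd A m (2 * k) ≤ 1 := by
        refine h m (by omega) (2 * k) ?_ ?_
        · have : m + 1 - m = 1 := by omega
          rw [this]; omega
        · have : m + 1 - m = 1 := by omega
          rw [this]; omega
      have hrr := ih (2 * k + 1) (hsub _ (by omega)) (r - 2 ^ m) (by rw [pow_succ] at hr; omega)
      have e2 : 2 * k * 2 ^ m + r = (2 * k + 1) * 2 ^ m + (r - 2 ^ m) := by
        have : (2 * k + 1) * 2 ^ m = 2 * k * 2 ^ m + 2 ^ m := by ring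
        omega
      rw [e2, ← Finset.sum_Ico_consecutive A (m := 2 * k * 2 ^ m) (n := (2 * k + 1) * 2 ^ m)
        (Nat.mul_le_mul_right _ (by omega)) (by omega)]
      unfold nd at hl
      push_cast
      linarith
    · have := ih (2 * k) (hsub _ (by omega)) r hr'
      push_cast
      linarith

/-- suffixes of a node -/
theorem suf_le (A : ℕ → ℝ) (m : ℕ) : ∀ k : ℕ,
    (∀ j ≤ m, ∀ k' : ℕ, k * 2 ^ (m - j) ≤ k' → k' < (k + 1) * 2 ^ (m - j) → nd A j k' ≤ 1) →
    ∀ r ≤ 2 ^ m, ∑ i ∈ Ico (k * 2 ^ m + r) ((k + 1) * 2 ^ m), A i ≤ m + 1 := by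
  induction m with
  | zero =>
    intro k h r hr
    rcases Nat.eq_zero_or_pos r with rfl | hr0
    · have := h 0 le_rfl k (by simp) (by simp)
      simpa [nd] using this
    · obtain rfl : r = 1 := by simp at hr; omega
      simp
  | succ m ih =>
    intro k h r hr
    have hsub : ∀ k'' : ℕ, k'' / 2 = k → ∀ j ≤ m, ∀ k' : ℕ, k'' * 2 ^ (m - j) ≤ k' →
        k' < (k'' + 1) * 2 ^ (m - j) → nd A j k' ≤ 1 := by
      intro k'' hk j hj k' h1 h2
      have e : m + 1 - j = (m - j) + 1 := by omega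
      refine h j (by omega) k' ?_ ?_
      · rw [e, pow_succ]
        have : 2 * k ≤ k'' := by omega
        calc k * (2 ^ (m - j) * 2) = (2 * k) * 2 ^ (m - j) := by ring
          _ ≤ k'' * 2 ^ (m - j) := Nat.mul_le_mul_right _ this
          _ ≤ k' := h1
      · rw [e, pow_succ]
        have : k'' + 1 ≤ 2 * (k + 1) := by omega
        calc k' < (k'' + 1) * 2 ^ (m - j) := h2
          _ ≤ (2 * (k + 1)) * 2 ^ (m - j) := Nat.mul_le_mul_right _ this
          _ = (k + 1) * (2 ^ (m - j) * 2) := by ring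
    have e1 : k * 2 ^ (m + 1) = 2 * k * 2 ^ m := by ring
    have e3 : (k + 1) * 2 ^ (m + 1) = (2 * k + 1 + 1) * 2 ^ m := by ring
    rw [e1, e3]
    rcases Nat.lt_or_ge r (2 ^ m) with hr' | hr'
    · -- right child full
      have hl : nd A m (2 * k + 1) ≤ 1 := by
        refine h m (by omega) (2 * k + 1) ?_ ?_
        · have : m + 1 - m = 1 := by omega
          rw [this]; omega
        · have : m + 1 - m = 1 := by omega
          rw [this]; omega
      have hrr := ih (2 * k) (hsub _ (by omega)) r hr'.le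
      have e4 : (2 * k + 1) * 2 ^ m = 2 * k * 2 ^ m + 2 ^ m := by ring
      rw [← Finset.sum_Ico_consecutive A (m := 2 * k * 2 ^ m + r) (n := (2 * k + 1) * 2 ^ m)
        (by omega) (Nat.mul_le_mul_right _ (by omega))]
      unfold nd at hl
      push_cast
      linarith
    · have e4 : (2 * k + 1) * 2 ^ m = 2 * k * 2 ^ m + 2 ^ m := by ring
      have := ih (2 * k + 1) (hsub _ (by omega)) (r - 2 ^ m) (by rw [pow_succ] at hr; omega)
      have e2 : (2 * k + 1) * 2 ^ m + (r - 2 ^ m) = 2 * k * 2 ^ m + r := by omega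
      rw [e2] at this
      push_cast
      linarith

end Pool.Agent.N476.PM
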