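import Pool.Agent.N476.PM.Place

set_option autoImplicit false

namespace Pool.Agent.N476.PM

open Finset

open Classical in
/-- a monotone finite sequence meets a lower set in an initial segment -/
theorem mono_lower {M : ℕ} (u : Fin M → ℝ) (hu : Monotone u) (L : Set ℝ) (hL : IsLowerSet L) :
    ∃ a ≤ M, ∀ k : Fin M, u k ∈ L ↔ k.1 < a := by
  refine ⟨(univ.filter (fun k => u k ∈ L)).card, ?_, fun k => ⟨fun h => ?_, fun h => ?_⟩⟩
  · exact (Finset.card_filter_le _ _).trans (by simp)
  · have : (Finset.Iic k).card ≤ (univ.filter (fun k => u k ∈ L)).card := by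
      refine Finset.card_le_card fun j hj => ?_
      rw [Finset.mem_filter]
      exact ⟨mem_univ _, hL (hu (Finset.mem_Iic.mp hj)) h⟩
    rw [Fin.card_Iic] at this
    omega
  · by_contra hc
    have : (univ.filter (fun k => u k ∈ L)).card ≤ (Finset.Iio k).card := by
      refine Finset.card_le_card fun j hj => ?_
      rw [Finset.mem_filter] at hj
      rw [Finset.mem_Iio]
      by_contra hcon
      exact hc (hL (hu (not_lt.mp hcon)) hj.2)
    rw [Fin.card_Iio] at this
    omega

open Classical in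
/-- **Finite version.** `2 ^ m` points in the plane are approximated by `N ≤ 2 ^ m` points up to
`m + 2` on all products of lower sets. -/
theorem finite_plane (m N : ℕ) (hN : N ≤ 2 ^ m) (α : Type) [Fintype α] (p : α → Fin 2 → ℝ)
    (hα : Fintype.card α = 2 ^ m) :
    ∃ x : Fin N → Fin 2 → ℝ, (∀ n i, ∃ q, x n i = p q i) ∧
      ∀ L : Fin 2 → Set ℝ, (∀ i, IsLowerSet (L i)) →
        |((univ.filter (fun n : Fin N => ∀ i, x n i ∈ L i)).card : ℝ) -
          N * (((univ.filter (fun q : α => ∀ i, p q i ∈ L i)).card : ℝ) / 2 ^ m)| ≤ m + 2 := by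
  have hM : 0 < 2 ^ m := by positivity
  let ε : Fin (2 ^ m) ≃ α := (Fintype.equivFinOfCardEq hα).symm
  let f : Fin 2 → Fin (2 ^ m) → ℝ := fun i k => p (ε k) i
  let σ : Fin 2 → Equiv.Perm (Fin (2 ^ m)) := fun i => Tuple.sort (f i)
  have hmono : ∀ i, Monotone (fun k => f i (σ i k)) := fun i => Tuple.monotone_sort (f i)
  let r : ℕ → ℕ := fun s => if h : s < 2 ^ m then ((σ 0).symm (σ 1 ⟨s, h⟩)).1 else 0
  have hr : ∀ s, r s < 2 ^ m := by
    intro s
    by_cases h : s < 2 ^ m
    · simp only [r, h, dif_pos]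
      exact ((σ 0).symm (σ 1 ⟨s, h⟩)).2
    · simp only [r, h, dif_neg, not_false_eq_true]
      exact hM
  have hMr : (0 : ℝ) < 2 ^ m := by positivity
  have hNr : (N : ℝ) ≤ 2 ^ m := by exact_mod_cast hN
  obtain ⟨l, hl, hbal⟩ := place_prefix m ((N : ℝ) / 2 ^ m) (by positivity)
    ((div_le_one hMr).mpr hNr) r hr (2 ^ m)
  set c : ℝ := (N : ℝ) / 2 ^ m with hc
  -- the token times
  have hTk : ((range (2 ^ m)).filter (tok c)).card = N := by
    have := tok_floor c (by positivity) ((div_le_one hMr).mpr hNr) (2 ^ m)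
    have e : c * ((2 ^ m : ℕ) : ℝ) = (N : ℝ) := by
      rw [hc]; push_cast; field_simp
    rw [e] at this
    simp at this
    exact_mod_cast this
  let τ : Fin N ≃ {s // s ∈ (range (2 ^ m)).filter (tok c)} :=
    (Finset.equivFinOfCardEq hTk).symm
  have hτ1 : ∀ n, (τ n).1 < 2 ^ m := fun n => Finset.mem_range.mp (Finset.mem_filter.mp (τ n).2).1
  have hτ2 : ∀ n, tok c (τ n).1 := fun n => (Finset.mem_filter.mp (τ n).2).2
  refine ⟨fun n => ![f 0 (σ 0 ⟨l (τ n).1, hl _⟩), f 1 (σ 1 ⟨(τ n).1, hτ1 n⟩)], ?_, ?_⟩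
  · intro n i
    fin_cases i
    · exact ⟨_, rfl⟩
    · exact ⟨_, rfl⟩
  · intro L hL
    obtain ⟨a0, ha0, h0⟩ := mono_lower (fun k => f 0 (σ 0 k)) (hmono 0) (L 0) (hL 0)
    obtain ⟨a1, ha1, h1⟩ := mono_lower (fun k => f 1 (σ 1 k)) (hmono 1) (L 1) (hL 1)
    have hb := hbal a1 ha1 a0 ha0
    have e1 : (univ.filter (fun n : Fin N => ∀ i, (![f 0 (σ 0 ⟨l (τ n).1, hl _⟩),
        f 1 (σ 1 ⟨(τ n).1, hτ1 n⟩)] : Fin 2 → ℝ) i ∈ L i)).card =
        ((range a1).filter (fun s => tok c s ∧ l s < a0)).card := by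
      refine Finset.card_bij (fun n _ => (τ n).1) ?_ ?_ ?_
      · intro n hn
        rw [Finset.mem_filter, Fin.forall_fin_two] at hn
        obtain ⟨_, hn0, hn1⟩ := hn
        rw [Finset.mem_filter, Finset.mem_range]
        exact ⟨(h1 ⟨(τ n).1, hτ1 n⟩).mp hn1, hτ2 n, (h0 ⟨l (τ n).1, hl _⟩).mp hn0⟩
      · intro n _ n' _ h
        exact τ.injective (Subtype.ext h)
      · intro s hs
        rw [Finset.mem_filter, Finset.mem_range] at hs
        obtain ⟨hs1, hs2, hs3⟩ := hs
        obtain ⟨n, hn⟩ := τ.surjective ⟨s, Finset.mem_filter.mpr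
          ⟨Finset.mem_range.mpr (lt_of_lt_of_le hs1 ha1), hs2⟩⟩
        have hn' : (τ n).1 = s := by rw [hn]
        refine ⟨n, ?_, hn'⟩
        rw [Finset.mem_filter, Fin.forall_fin_two]
        refine ⟨mem_univ _, (h0 ⟨l (τ n).1, hl _⟩).mpr ?_, (h1 ⟨(τ n).1, hτ1 n⟩).mpr ?_⟩
        · simpa [hn'] using hs3
        · simpa [hn'] using hs1
    have e2 : (univ.filter (fun q : α => ∀ i, p q i ∈ L i)).card =
        ((range a1).filter (fun s => r s < a0)).card := by
      symm
      refine Finset.card_bij (fun s hs => ε (σ 1 ⟨s, lt_of_lt_of_le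
        (Finset.mem_range.mp (Finset.mem_filter.mp hs).1) ha1⟩)) ?_ ?_ ?_
      · intro s hs
        rw [Finset.mem_filter, Finset.mem_range] at hs
        obtain ⟨hs1, hs2⟩ := hs
        have hsM := lt_of_lt_of_le hs1 ha1
        rw [Finset.mem_filter, Fin.forall_fin_two]
        refine ⟨mem_univ _, ?_, (h1 ⟨s, hsM⟩).mpr hs1⟩
        have := (h0 ((σ 0).symm (σ 1 ⟨s, hsM⟩))).mpr (by
          have e : r s = ((σ 0).symm (σ 1 ⟨s, hsM⟩)).1 := by simp only [r, hsM, dif_pos]
          rw [← e]; exact hs2)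
        simp only [Equiv.apply_symm_apply] at this
        exact this
      · intro s hs s' hs' h
        have := (σ 1).injective (ε.injective h)
        exact congrArg Fin.val this
      · intro q hq
        rw [Finset.mem_filter, Fin.forall_fin_two] at hq
        obtain ⟨_, hq0, hq1⟩ := hq
        have hs : ε (σ 1 ((σ 1).symm (ε.symm q))) = q := by simp
        set s := (σ 1).symm (ε.symm q) with hsdef
        have hs1 : s.1 < a1 := (h1 s).mp (by
          show p (ε (σ 1 s)) 1 ∈ L 1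
          rw [hs]; exact hq1)
        have hs0 : r s.1 < a0 := by
          have e : r s.1 = ((σ 0).symm (σ 1 s)).1 := by simp only [r, s.2, dif_pos]
          rw [e]
          refine (h0 _).mp ?_
          simp only [Equiv.apply_symm_apply]
          show p (ε (σ 1 s)) 0 ∈ L 0
          rw [hs]; exact hq0
        exact ⟨s.1, Finset.mem_filter.mpr ⟨Finset.mem_range.mpr hs1, hs0⟩, hs⟩
    rw [e1, e2]
    have e3 : (N : ℝ) * ((((range a1).filter (fun s => r s < a0)).card : ℝ) / 2 ^ m) =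
        c * (((range a1).filter (fun s => r s < a0)).card : ℝ) := by
      rw [hc]; ring
    rw [e3]
    exact hb

end Pool.Agent.N476.PM
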