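import Pool.Agent.N476.PM.Core

set_option autoImplicit false

namespace Pool.Agent.N476.PM

open Finset

/-- a token is emitted at step `s` -/
def tok (c : ℝ) (s : ℕ) : Prop := ⌊c * s⌋ < ⌊c * (s + 1 : ℕ)⌋

open Classical in
/-- excess of tokens over mass, leaf `i`, time `t` -/
noncomputable def A (c : ℝ) (p l : ℕ → ℕ) (t i : ℕ) : ℝ :=
  ∑ s ∈ range t, ((if tok c s ∧ l s = i then (1 : ℝ) else 0) - (if p s = i then c else 0))

open Classical in
theorem sum_A (c : ℝ) (p l : ℕ → ℕ) (t : ℕ) (S : Finset ℕ) :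
    ∑ i ∈ S, A c p l t i = (((range t).filter (fun s => tok c s ∧ l s ∈ S)).card : ℝ) -
      c * (((range t).filter (fun s => p s ∈ S)).card : ℝ) := by
  unfold A
  rw [Finset.sum_comm]
  simp only [Finset.sum_sub_distrib]
  rw [Finset.card_filter, Finset.card_filter]
  push_cast
  rw [Finset.mul_sum]
  congr 1
  · refine Finset.sum_congr rfl fun s _ => ?_
    by_cases h : tok c s
    · simp only [h, true_and]
      rw [Finset.sum_ite_eq]
    · simp [h]
  · refine Finset.sum_congr rfl fun s _ => ?_
    rw [Finset.sum_ite_eq]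
    simp

theorem tok_floor (c : ℝ) (hc0 : 0 ≤ c) (hc1 : c ≤ 1) (t : ℕ) [DecidablePred (tok c)] :
    (((range t).filter (tok c)).card : ℤ) = ⌊c * t⌋ := by
  induction t with
  | zero => simp
  | succ t ih =>
    rw [Finset.range_add_one, Finset.filter_insert]
    have h1 : ⌊c * t⌋ ≤ ⌊c * (t + 1 : ℕ)⌋ := Int.floor_le_floor (by
      push_cast; nlinarith)
    have h2 : ⌊c * (t + 1 : ℕ)⌋ ≤ ⌊c * t⌋ + 1 := by
      rw [← Int.floor_add_one]
      exact Int.floor_le_floor (by push_cast; nlinarith)
    split_ifs with h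
    · rw [Finset.card_insert_of_notMem (by simp)]
      have : ⌊c * t⌋ < ⌊c * (t + 1 : ℕ)⌋ := h
      push_cast
      push_cast at this h2 ih
      omega
    · have : ¬ ⌊c * t⌋ < ⌊c * (t + 1 : ℕ)⌋ := h
      push_cast at this h1 ih ⊢
      omega

theorem root_A (c : ℝ) (hc0 : 0 ≤ c) (hc1 : c ≤ 1) (m : ℕ) (p l : ℕ → ℕ) (hp : ∀ s, p s < 2 ^ m)
    (hl : ∀ s, l s < 2 ^ m) (t : ℕ) : ∑ i ∈ range (2 ^ m), A c p l t i = ⌊c * t⌋ - c * t := by
  classical
  rw [sum_A, ← tok_floor c hc0 hc1 t]
  have e1 : (range t).filter (fun s => tok c s ∧ l s ∈ range (2 ^ m)) = (range t).filter (tok c) := by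
    ext s
    simp [hl s]
  have e2 : (range t).filter (fun s => p s ∈ range (2 ^ m)) = range t := by
    ext s
    simp [hp s]
  rw [e1, e2, Finset.card_range]
  norm_cast

theorem nd_mono (A B : ℕ → ℝ) (h : ∀ i, A i ≤ B i) (j k : ℕ) : nd A j k ≤ nd B j k :=
  Finset.sum_le_sum fun i _ => h i

theorem Nat.lt_succ_mul_of_div_lt' (l j : ℕ) : l < (l / 2 ^ j + 1) * 2 ^ j := by
  have h := Nat.div_add_mod l (2 ^ j)
  have h2 := Nat.mod_lt l (show 0 < 2 ^ j by positivity)
  calc l = 2 ^ j * (l / 2 ^ j) + l % 2 ^ j := h.symm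
    _ < 2 ^ j * (l / 2 ^ j) + 2 ^ j := by omega
    _ = (l / 2 ^ j + 1) * 2 ^ j := by ring

theorem nd_add_single (B : ℕ → ℝ) (l j k : ℕ) :
    nd (fun i => B i + if l = i then 1 else 0) j k = nd B j k + if l / 2 ^ j = k then 1 else 0 := by
  unfold nd
  rw [Finset.sum_add_distrib, Finset.sum_ite_eq]
  congr 1
  have : l ∈ Ico (k * 2 ^ j) ((k + 1) * 2 ^ j) ↔ l / 2 ^ j = k := by
    rw [Finset.mem_Ico]
    constructor
    · rintro ⟨h1, h2⟩
      exact Nat.div_eq_of_lt_le h1 h2
    · rintro rfl
      exact ⟨Nat.div_mul_le_self _ _, Nat.lt_succ_mul_of_div_lt' l j⟩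
  simp only [this]

/-- **Placement.** -/
theorem place (m : ℕ) (c : ℝ) (hc0 : 0 ≤ c) (hc1 : c ≤ 1) (p : ℕ → ℕ) (hp : ∀ s, p s < 2 ^ m)
    (T : ℕ) : ∃ l : ℕ → ℕ, (∀ s, l s < 2 ^ m) ∧ ∀ t ≤ T, ∀ j ≤ m, ∀ k, nd (A c p l t) j k ≤ 1 := by
  classical
  induction T with
  | zero =>
    refine ⟨fun _ => 0, fun _ => by positivity, fun t ht j _ k => ?_⟩
    obtain rfl : t = 0 := by omega
    unfold nd A
    simp
  | succ T ih =>
    obtain ⟨l, hl, h⟩ := ih
    have hB : ∀ i, A c p l T i - (if p T = i then c else 0) ≤ A c p l T i := by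
      intro i
      split_ifs <;> linarith
    by_cases htok : tok c T
    · obtain ⟨l0, hl0, hd⟩ := descent (fun i => A c p l T i - (if p T = i then c else 0)) m 0 (by
        have e : nd (fun i => A c p l T i - (if p T = i then c else 0)) m 0 =
            (⌊c * T⌋ - c * T) - c := by
          unfold nd
          rw [Finset.sum_sub_distrib, Finset.sum_ite_eq]
          have e0 : Ico (0 * 2 ^ m) ((0 + 1) * 2 ^ m) = range (2 ^ m) := by
            ext i; simp
          rw [e0, root_A c hc0 hc1 m p l hp hl, if_pos (by simpa using hp T)]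
        rw [e]
        have h1 := Int.floor_le (c * (T + 1 : ℕ))
        have h2 : (⌊c * T⌋ : ℝ) + 1 ≤ ⌊c * (T + 1 : ℕ)⌋ := by
          have : ⌊c * T⌋ < ⌊c * (T + 1 : ℕ)⌋ := htok
          exact_mod_cast this
        push_cast at h1 h2 ⊢
        linarith)
      have hl0' : l0 < 2 ^ m := by
        rcases Nat.div_eq_zero_iff.mp hl0 with h | h
        · exact absurd h (by positivity)
        · exact h
      have hpre : ∀ t ≤ T, A c p (Function.update l T l0) t = A c p l t := by
        intro t ht
        funext i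
        unfold A
        refine Finset.sum_congr rfl fun s hs => ?_
        rw [Finset.mem_range] at hs
        rw [Function.update_of_ne (by omega)]
      have hnew : A c p (Function.update l T l0) (T + 1) =
          fun i => (A c p l T i - (if p T = i then c else 0)) + if l0 = i then 1 else 0 := by
        funext i
        have h0 := congrFun (hpre T le_rfl) i
        unfold A at h0 ⊢
        rw [Finset.sum_range_succ, h0, Function.update_self]
        simp only [htok, true_and]
        ring
      refine ⟨Function.update l T l0, fun s => ?_, fun t ht j hj k => ?_⟩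
      · by_cases hs : s = T
        · rw [hs, Function.update_self]; exact hl0'
        · rw [Function.update_of_ne hs]; exact hl s
      · rcases Nat.lt_or_ge T t with ht' | ht'
        · obtain rfl : t = T + 1 := by omega
          rw [hnew, nd_add_single]
          split_ifs with hk
          · have := hd j hj
            rw [hk] at this
            linarith
          · have := nd_mono _ _ hB j k
            have h3 := h T le_rfl j hj k
            change nd (fun i => A c p l T i) j k ≤ 1 at h3
            linarith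
        · rw [hpre t ht']
          exact h t ht' j hj k
    · refine ⟨l, hl, fun t ht j hj k => ?_⟩
      rcases Nat.lt_or_ge T t with ht' | ht'
      · obtain rfl : t = T + 1 := by omega
        have e : ∀ i, A c p l (T + 1) i ≤ A c p l T i := by
          intro i
          unfold A
          rw [Finset.sum_range_succ]
          simp only [htok, false_and, if_false]
          split_ifs <;> linarith
        exact (nd_mono _ _ e j k).trans (h T le_rfl j hj k)
      · exact h t ht' j hj k

open Classical in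
/-- all prefixes of the leaves are balanced at all times -/
theorem place_prefix (m : ℕ) (c : ℝ) (hc0 : 0 ≤ c) (hc1 : c ≤ 1) (p : ℕ → ℕ)
    (hp : ∀ s, p s < 2 ^ m) (T : ℕ) : ∃ l : ℕ → ℕ, (∀ s, l s < 2 ^ m) ∧ ∀ t ≤ T, ∀ a ≤ 2 ^ m,
      |(((range t).filter (fun s => tok c s ∧ l s < a)).card : ℝ) -
        c * (((range t).filter (fun s => p s < a)).card : ℝ)| ≤ m + 2 := by
  obtain ⟨l, hl, h⟩ := place m c hc0 hc1 p hp T
  refine ⟨l, hl, fun t ht a ha => ?_⟩
  have hs := sum_A c p l t (range a)
  simp only [Finset.mem_range] at hs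
  rw [← hs]
  have h1 := pre_le (A c p l t) m 0 (fun j hj k' _ _ => h t ht j hj k') a ha
  have h2 := suf_le (A c p l t) m 0 (fun j hj k' _ _ => h t ht j hj k') a ha
  have h3 := root_A c hc0 hc1 m p l hp hl t
  have h4 := Int.lt_floor_add_one (c * t)
  rw [zero_mul, zero_add, ← Finset.range_eq_Ico] at h1
  rw [zero_mul, zero_add, zero_add, one_mul] at h2
  rw [Finset.range_eq_Ico, ← Finset.sum_Ico_consecutive _ (Nat.zero_le a) ha,
    ← Finset.range_eq_Ico] at h3
  rw [abs_le]
  constructor <;> linarith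

end Pool.Agent.N476.PM
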